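import Pool.Agent.L7h59.NC.Def
import Pool.Agent.Results.MP_6374fb_al.ColimFieldInjective
import Pool.Agent.Results.MP_490288_al.ColimPositiveCharacteristic

/-!
# Project NC, part FLD1: the colimit of the groups `K₁(k[H])` for a field `k`
-/

set_option autoImplicit false

namespace Pool.Agent.L7h15.NC

open Pool.Agent.L7h59.NC
open Pool.Agent.L7h59.TW (RFun Blow Cont k0 k1)
open Pool.Agent.Y69.FJ (FinSub)

noncomputable section

/-- the case of a field, `K₁` -/
theorem s_FLD1 : S_FLD1 := by
  intro k G _ _ z n hn hz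
  obtain ⟨z', hz'⟩ : ∃ z' : FreeAbelianGroup (Pool.Agent.Y69.FJK.Sym k G), z' = z := ⟨z, rfl⟩
  have h1 : n • Pool.Agent.Y69.FJK.assembly k G
      (QuotientAddGroup.mk z' : Pool.Agent.Y69.FJK.ColimK1 k G) = 0 := by
    subst hz'
    exact hz
  have h3 : ∃ l : ℕ, 0 < l ∧
      l • (QuotientAddGroup.mk z' : Pool.Agent.Y69.FJK.ColimK1 k G) = 0 := by
    obtain ⟨p, hp⟩ := CharP.exists k
    rcases CharP.char_is_prime_or_zero k p with hpp | hp0
    · exact Pool.Agent.Results.MP_490288_al.ColimPositiveCharacteristic.result k G p hpp _ n hn h1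
    · subst hp0
      have : CharZero k := CharP.charP_to_charZero k
      exact Pool.Agent.Results.MP_6374fb_al.ColimFieldInjective.result k G _ n hn h1
  obtain ⟨l, hl, h4⟩ := h3
  refine ⟨l, hl, ?_⟩
  subst hz'
  exact h4

end

end Pool.Agent.L7h15.NC
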